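import Pool.Agent.MP_742cc2_an.H85.Main

namespace Pool.Agent.Results.MP_742cc2_an.Besicovitch

open Filter Pool.Agent.MP_742cc2_an.H85

/-- There are a minimal rotation `x ↦ x + α` of the two-torus and a `C¹` function `φ` on it such
that the cylindrical transformation `F (x, t) = (x + α, t + φ x)` has a dense orbit and also a
discrete orbit. -/
theorem result :
    ∃ (α : UnitAddCircle × UnitAddCircle) (φ : UnitAddCircle × UnitAddCircle → ℝ)
      (F : Equiv.Perm ((UnitAddCircle × UnitAddCircle) × ℝ)),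
      (∀ x : UnitAddCircle × UnitAddCircle, Dense (Set.range fun n : ℤ => x + n • α)) ∧
      ContDiff ℝ 1 (fun y : ℝ × ℝ => φ ((y.1 : UnitAddCircle), (y.2 : UnitAddCircle))) ∧
      (∀ (x : UnitAddCircle × UnitAddCircle) (t : ℝ), F (x, t) = (x + α, t + φ x)) ∧
      (∃ p, Dense (Set.range fun n : ℤ => (F ^ n) p)) ∧
      (∃ p, IsDiscrete (Set.range fun n : ℤ => (F ^ n) p) ∧
        Tendsto (fun n : ℤ => |((F ^ n) p).2 - p.2|) cofinite atTop) := by
  refine ⟨pr al, ph, FF, minimal, ?_, fun x t => rfl, dense_orbit, (pr 0, 0),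
    isDiscrete_of_tendsto _ tendsto_origin, ?_⟩
  · have : (fun y : ℝ × ℝ => ph ((y.1 : UnitAddCircle), (y.2 : UnitAddCircle))) = SS 1 :=
      funext fun y => ph_pr y
    rw [this]
    exact SS_contDiff
  · simp only [sub_zero]
    exact tendsto_abs_atTop_atTop.comp tendsto_origin

end Pool.Agent.Results.MP_742cc2_an.Besicovitch
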